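import Pool.Agent.Helper23.EC.DGoalsN

/-!
# MP_ecc237_nt, Part D: packet N4 (symmetries of the n-sums of `h, d, χ`)
-/

set_option autoImplicit false

open MeasureTheory Filter Topology Set

namespace Pool.Agent.Helper87.EC.D_N4

open EC237

/-- the n-sum of a function of shifted vectors -/
noncomputable def SS (f : SV → PowerSeries ℂ) (r m al : ℤ) (i : ℕ) : ℂ :=
  ∑' n : ℤ, if InCl r (n, m) then PowerSeries.coeff i (f ((n, m), al)) else 0

theorem hS_eq (y : ℝ) (r m al : ℤ) (i : ℕ) : hS y r m al i = SS (hh (y:ℂ)) r m al i := rfl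
theorem dS_eq (y : ℝ) (r m al : ℤ) (i : ℕ) : dS y r m al i = SS (dd (y:ℂ)) r m al i := rfl
theorem xS_eq (y : ℝ) (r m al : ℤ) (i : ℕ) : xS y r m al i = SS (xx (y:ℂ)) r m al i := rfl

/-- even functions -/
def Ev (f : SV → PowerSeries ℂ) : Prop := ∀ v, f (-v) = f v

/-- homogeneous functions -/
def Ho (f : SV → PowerSeries ℂ) : Prop := ∀ (k : ℤ × ℤ) (al : ℤ) (i : ℕ),
  PowerSeries.coeff i (f (k, al)) = (al:ℂ) ^ i * PowerSeries.coeff i (f (k, 1))

theorem SS_neg {f : SV → PowerSeries ℂ} (hf : Ev f) (r m al : ℤ) (i : ℕ) :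
    SS f (-r) (-m) al i = SS f r m (-al) i := by
  unfold SS
  rw [← (Equiv.neg ℤ).tsum_eq]
  refine tsum_congr fun n => ?_
  simp only [Equiv.neg_apply]
  have h1 : InCl (-r) (-n, -m) ↔ InCl r (n, m) := by
    unfold InCl
    constructor <;> intro h <;> simp only at h ⊢ <;> omega
  have h2 : (((-n, -m), al) : SV) = -((n, m), -al) := by
    simp
  by_cases h : InCl r (n, m)
  · rw [if_pos h, if_pos (h1.2 h), h2, hf]
  · rw [if_neg h, if_neg (fun h' => h (h1.1 h'))]

theorem SS_add_six (f : SV → PowerSeries ℂ) (r m al : ℤ) (i : ℕ) :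
    SS f (r + 6) m al i = SS f r m al i := by
  unfold SS
  refine tsum_congr fun n => ?_
  have h1 : InCl (r + 6) (n, m) ↔ InCl r (n, m) := by
    unfold InCl
    constructor <;> intro h <;> simp only at h ⊢ <;> omega
  by_cases h : InCl r (n, m)
  · rw [if_pos h, if_pos (h1.2 h)]
  · rw [if_neg h, if_neg (fun h' => h (h1.1 h'))]

theorem SS_scale {f : SV → PowerSeries ℂ} (hf : Ho f) (r m al : ℤ) (i : ℕ) :
    SS f r m al i = (al:ℂ) ^ i * SS f r m 1 i := by
  unfold SS
  rw [← tsum_mul_left]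
  refine tsum_congr fun n => ?_
  by_cases h : InCl r (n, m)
  · rw [if_pos h, if_pos h, hf]
  · rw [if_neg h, if_neg h, mul_zero]

theorem SS_refl {f : SV → PowerSeries ℂ} {e : ℂ}
    (hf : ∀ (n m al : ℤ) (i : ℕ), PowerSeries.coeff i (f ((-n, m), al)) =
      e * PowerSeries.coeff i (f ((n, m), -al))) (r m al : ℤ) (i : ℕ) :
    SS f r m al i = e * SS f r m (-al) i := by
  unfold SS
  rw [← (Equiv.neg ℤ).tsum_eq, ← tsum_mul_left]
  refine tsum_congr fun n => ?_
  simp only [Equiv.neg_apply]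
  have h1 : InCl r (-n, m) ↔ InCl r (n, m) := by
    unfold InCl
    constructor <;> intro h <;> simp only at h ⊢ <;> omega
  by_cases h : InCl r (n, m)
  · rw [if_pos h, if_pos (h1.2 h), hf]
  · rw [if_neg h, if_neg (fun h' => h (h1.1 h')), mul_zero]

theorem SS_out (f : SV → PowerSeries ℂ) (r m al : ℤ) (i : ℕ) (h : (m - r) % 3 ≠ 0) :
    SS f r m al i = 0 := by
  unfold SS
  refine (tsum_congr fun n => ?_).trans tsum_zero
  rw [if_neg]
  unfold InCl
  intro h'
  simp only at h'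
  omega

/-! ### The functions -/

theorem As_scale (w : ℂ) (k : ℤ × ℤ) (al : ℤ) :
    As w (k, al) = PowerSeries.rescale (al:ℂ) (As w (k, 1)) := by
  ext p
  unfold As gser
  rw [PowerSeries.coeff_rescale, PowerSeries.coeff_mk, PowerSeries.coeff_mk]
  push_cast
  rw [one_pow, one_mul]

theorem Bs_scale (w : ℂ) (k : ℤ × ℤ) (al : ℤ) :
    Bs w (k, al) = PowerSeries.rescale (al:ℂ) (Bs w (k, 1)) := by
  ext p
  unfold Bs gser
  rw [PowerSeries.coeff_rescale, PowerSeries.coeff_mk, PowerSeries.coeff_mk]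
  push_cast
  rw [one_pow, one_mul]

theorem hh_ho (w : ℂ) : Ho (hh w) := by
  intro k al i
  unfold hh
  rw [As_scale, Bs_scale, ← map_mul]
  simp only [map_smul, smul_eq_mul, PowerSeries.coeff_rescale]
  ring

theorem dd_ho (w : ℂ) : Ho (dd w) := by
  intro k al i
  unfold dd
  rw [As_scale, Bs_scale, ← map_pow, ← map_pow, ← map_add]
  simp only [map_smul, smul_eq_mul, PowerSeries.coeff_rescale]
  ring

theorem xx_ho (w : ℂ) : Ho (xx w) := by
  intro k al i
  unfold xx
  rw [As_scale, Bs_scale, ← map_pow, ← map_pow, ← map_sub]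
  simp only [map_smul, smul_eq_mul, PowerSeries.coeff_rescale]
  ring

theorem hh_ev (hA1 : EC237.A1) {w : ℂ} (hw : 0 < w.re) : Ev (hh w) := by
  intro v
  unfold hh
  rw [((hA1 w hw).2.2.1 v).1, ((hA1 w hw).2.2.1 v).2, neg_mul_neg]

theorem dd_ev (hA1 : EC237.A1) {w : ℂ} (hw : 0 < w.re) : Ev (dd w) := by
  intro v
  unfold dd
  rw [((hA1 w hw).2.2.1 v).1, ((hA1 w hw).2.2.1 v).2, neg_sq, neg_sq]

theorem xx_ev (hA1 : EC237.A1) {w : ℂ} (hw : 0 < w.re) : Ev (xx w) := by
  intro v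
  unfold xx
  rw [((hA1 w hw).2.2.1 v).1, ((hA1 w hw).2.2.1 v).2, neg_sq, neg_sq]

theorem As_refl (w : ℂ) (n m al : ℤ) : As w ((-n, m), al) = -Bs w ((n, m), -al) := by
  ext p
  unfold As Bs gser
  rw [map_neg, PowerSeries.coeff_mk, PowerSeries.coeff_mk]
  have h : KA w (-n, m) = -KB w (n, m) := by
    unfold KA KB
    push_cast
    ring
  simp only [h]
  rw [inv_neg]
  push_cast
  rw [neg_pow (KB w (n, m))⁻¹, neg_pow (al:ℂ)]
  ring

theorem Bs_refl (w : ℂ) (n m al : ℤ) : Bs w ((-n, m), al) = -As w ((n, m), -al) := by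
  ext p
  unfold As Bs gser
  rw [map_neg, PowerSeries.coeff_mk, PowerSeries.coeff_mk]
  have h : KB w (-n, m) = -KA w (n, m) := by
    unfold KA KB
    push_cast
    ring
  simp only [h]
  rw [inv_neg]
  push_cast
  rw [neg_pow (KA w (n, m))⁻¹, neg_pow (al:ℂ)]
  ring

theorem hh_refl (w : ℂ) (n m al : ℤ) : hh w ((-n, m), al) = hh w ((n, m), -al) := by
  unfold hh
  rw [As_refl, Bs_refl, neg_mul_neg, mul_comm]

theorem dd_refl (w : ℂ) (n m al : ℤ) : dd w ((-n, m), al) = dd w ((n, m), -al) := by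
  unfold dd
  rw [As_refl, Bs_refl, neg_sq, neg_sq, add_comm]

theorem xx_refl (w : ℂ) (n m al : ℤ) : xx w ((-n, m), al) = -xx w ((n, m), -al) := by
  unfold xx
  rw [As_refl, Bs_refl, neg_sq, neg_sq, ← smul_neg, neg_sub]

theorem SS_zero_coeff {f : SV → PowerSeries ℂ} (hf : Ho f) (r m al be : ℤ) :
    SS f r m al 0 = SS f r m be 0 := by
  rw [SS_scale hf r m al 0, SS_scale hf r m be 0, pow_zero, pow_zero]

theorem thm (hA1 : EC237.A1) (_hN1 : EC237.N1) : EC237.N4 := by
  intro y hy r m al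
  have hw : 0 < ((y:ℂ)).re := by simpa using hy
  have eh := hh_ev hA1 hw
  have ed := dd_ev hA1 hw
  have ex := xx_ev hA1 hw
  have ph := hh_ho (y:ℂ)
  have pd := dd_ho (y:ℂ)
  have px := xx_ho (y:ℂ)
  simp only [hS_eq, dS_eq, xS_eq]
  refine ⟨fun i => ⟨SS_neg eh r m al i, SS_neg ed r m al i, SS_neg ex r m al i⟩,
    fun i => ⟨SS_add_six _ r m al i, SS_add_six _ r m al i, SS_add_six _ r m al i⟩,
    SS_zero_coeff ph r m al 0, SS_zero_coeff pd r m al 0, SS_scale ph r m al 2,
    SS_scale pd r m al 2, ?_, ?_, ?_, ?_, ?_, ?_⟩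
  · rw [SS_scale px r m al 1, pow_one]
  · intro i hi
    have hodd : Odd i := Nat.odd_iff.2 hi
    constructor
    · have h1 := SS_refl (f := hh (y:ℂ)) (e := 1) (fun n m al i => by rw [hh_refl, one_mul]) r m al i
      rw [one_mul, SS_scale ph r m (-al) i, SS_scale ph r m al i] at h1
      push_cast at h1
      rw [hodd.neg_pow] at h1
      rw [SS_scale ph r m al i]
      linear_combination h1 / 2
    · have h1 := SS_refl (f := dd (y:ℂ)) (e := 1) (fun n m al i => by rw [dd_refl, one_mul]) r m al i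
      rw [one_mul, SS_scale pd r m (-al) i, SS_scale pd r m al i] at h1
      push_cast at h1
      rw [hodd.neg_pow] at h1
      rw [SS_scale pd r m al i]
      linear_combination h1 / 2
  · intro i hi
    have heven : Even i := Nat.even_iff.2 hi
    have h1 := SS_refl (f := xx (y:ℂ)) (e := -1)
      (fun n m al i => by rw [xx_refl, map_neg, neg_one_mul]) r m al i
    rw [SS_scale px r m (-al) i, SS_scale px r m al i] at h1
    push_cast at h1
    rw [heven.neg_pow] at h1
    rw [SS_scale px r m al i]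
    linear_combination h1 / 2
  · have h1 := SS_neg ex (-r) m al 1
    rw [neg_neg] at h1
    rw [h1, SS_scale px (-r) m (-al) 1, SS_scale px (-r) m al 1]
    push_cast
    ring
  · have h1 := SS_neg eh (-r) m al 0
    rw [neg_neg] at h1
    rw [h1]
    exact SS_zero_coeff ph (-r) m (-al) al
  · intro h i
    exact ⟨SS_out _ r m al i h, SS_out _ r m al i h, SS_out _ r m al i h⟩

end Pool.Agent.Helper87.EC.D_N4
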