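import Pool.Agent.Helper87.EC.D_N4

/-!
# MP_ecc237_nt, Part D: packet N5 (symmetries of the n-sums of `P` and `F`)
-/

set_option autoImplicit false

open MeasureTheory Filter Topology Set

namespace Pool.Agent.Helper87.EC.D_N5

open EC237 Pool.Agent.Helper87.EC.D_N4

/-- the n-sum of a function of two shifted vectors -/
noncomputable def S2 (g : SV → SV → PowerSeries ℂ) (r1 r2 m1 m2 al1 al2 : ℤ) (i : ℕ) : ℂ :=
  ∑' q : ℤ × ℤ, if InCl r1 (q.1, m1) ∧ InCl r2 (q.2, m2) then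
    PowerSeries.coeff i (g ((q.1, m1), al1) ((q.2, m2), al2)) else 0

theorem pS_eq (y : ℝ) (r1 r2 m1 m2 al1 al2 : ℤ) (i : ℕ) :
    pS y r1 r2 m1 m2 al1 al2 i = S2 (Pp (y:ℂ)) r1 r2 m1 m2 al1 al2 i := rfl
theorem fS_eq (y : ℝ) (r1 r2 m1 m2 al1 al2 : ℤ) (i : ℕ) :
    fS y r1 r2 m1 m2 al1 al2 i = S2 (Ff (y:ℂ)) r1 r2 m1 m2 al1 al2 i := rfl

theorem S2_swap {g : SV → SV → PowerSeries ℂ} (hg : ∀ v1 v2, g v2 v1 = -g v1 v2)
    (r1 r2 m1 m2 al1 al2 : ℤ) (i : ℕ) :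
    S2 g r2 r1 m2 m1 al2 al1 i = -S2 g r1 r2 m1 m2 al1 al2 i := by
  unfold S2
  rw [← (Equiv.prodComm ℤ ℤ).tsum_eq, ← tsum_neg]
  refine tsum_congr fun q => ?_
  by_cases h : InCl r1 (q.1, m1) ∧ InCl r2 (q.2, m2)
  · refine (if_pos (show InCl r2 (q.2, m2) ∧ InCl r1 (q.1, m1) from h.symm)).trans ?_
    rw [if_pos h, ← map_neg, ← hg]
    rfl
  · refine (if_neg (show ¬ (InCl r2 (q.2, m2) ∧ InCl r1 (q.1, m1)) from
      fun h' => h h'.symm)).trans ?_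
    rw [if_neg h, neg_zero]

theorem incl_neg (r n m : ℤ) : InCl (-r) (-n, -m) ↔ InCl r (n, m) := by
  unfold InCl
  constructor <;> intro h <;> simp only at h ⊢ <;> omega

theorem incl_refl (r n m : ℤ) : InCl r (-n, m) ↔ InCl r (n, m) := by
  unfold InCl
  constructor <;> intro h <;> simp only at h ⊢ <;> omega

theorem S2_neg {g : SV → SV → PowerSeries ℂ} (hg : ∀ v1 v2, g (-v1) (-v2) = g v1 v2)
    (r1 r2 m1 m2 al1 al2 : ℤ) (i : ℕ) :
    S2 g (-r1) (-r2) (-m1) (-m2) al1 al2 i = S2 g r1 r2 m1 m2 (-al1) (-al2) i := by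
  unfold S2
  rw [← (Equiv.neg (ℤ × ℤ)).tsum_eq]
  refine tsum_congr fun q => ?_
  have h2 : (((-q.1, -m1), al1) : SV) = -((q.1, m1), -al1) := by simp
  have h3 : (((-q.2, -m2), al2) : SV) = -((q.2, m2), -al2) := by simp
  by_cases h : InCl r1 (q.1, m1) ∧ InCl r2 (q.2, m2)
  · refine (if_pos (show InCl (-r1) (-q.1, -m1) ∧ InCl (-r2) (-q.2, -m2) from
      ⟨(incl_neg _ _ _).2 h.1, (incl_neg _ _ _).2 h.2⟩)).trans ?_
    rw [if_pos h]
    have h4 := hg ((q.1, m1), -al1) ((q.2, m2), -al2)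
    rw [← h2, ← h3] at h4
    rw [← h4]
    rfl
  · refine (if_neg (show ¬ (InCl (-r1) (-q.1, -m1) ∧ InCl (-r2) (-q.2, -m2)) from
      fun h' => h ⟨(incl_neg _ _ _).1 h'.1, (incl_neg _ _ _).1 h'.2⟩)).trans ?_
    rw [if_neg h]

theorem S2_refl {g : SV → SV → PowerSeries ℂ} {e : ℂ}
    (hg : ∀ (n1 m1 al1 n2 m2 al2 : ℤ) (i : ℕ),
      PowerSeries.coeff i (g ((-n1, m1), al1) ((-n2, m2), al2)) =
        e * PowerSeries.coeff i (g ((n1, m1), -al1) ((n2, m2), -al2)))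
    (r1 r2 m1 m2 al1 al2 : ℤ) (i : ℕ) :
    S2 g r1 r2 m1 m2 al1 al2 i = e * S2 g r1 r2 m1 m2 (-al1) (-al2) i := by
  unfold S2
  rw [← (Equiv.neg (ℤ × ℤ)).tsum_eq, ← tsum_mul_left]
  refine tsum_congr fun q => ?_
  by_cases h : InCl r1 (q.1, m1) ∧ InCl r2 (q.2, m2)
  · refine (if_pos (show InCl r1 (-q.1, m1) ∧ InCl r2 (-q.2, m2) from
      ⟨(incl_refl _ _ _).2 h.1, (incl_refl _ _ _).2 h.2⟩)).trans ?_
    rw [if_pos h, ← hg]
    rfl
  · refine (if_neg (show ¬ (InCl r1 (-q.1, m1) ∧ InCl r2 (-q.2, m2)) from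
      fun h' => h ⟨(incl_refl _ _ _).1 h'.1, (incl_refl _ _ _).1 h'.2⟩)).trans ?_
    rw [if_neg h, mul_zero]

/-- homogeneity -/
def Ho2 (g : SV → SV → PowerSeries ℂ) : Prop := ∀ (k1 k2 : ℤ × ℤ) (c al1 al2 : ℤ),
  g (k1, c * al1) (k2, c * al2) = PowerSeries.rescale (c:ℂ) (g (k1, al1) (k2, al2))

theorem S2_scale {g : SV → SV → PowerSeries ℂ} (hg : Ho2 g) (r1 r2 m1 m2 c al1 al2 : ℤ) (i : ℕ) :
    S2 g r1 r2 m1 m2 (c * al1) (c * al2) i = (c:ℂ) ^ i * S2 g r1 r2 m1 m2 al1 al2 i := by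
  unfold S2
  rw [← tsum_mul_left]
  refine tsum_congr fun q => ?_
  by_cases h : InCl r1 (q.1, m1) ∧ InCl r2 (q.2, m2)
  · rw [if_pos h, if_pos h, hg, PowerSeries.coeff_rescale]
  · rw [if_neg h, if_neg h, mul_zero]

theorem S2_out (g : SV → SV → PowerSeries ℂ) (r1 r2 m1 m2 al1 al2 : ℤ) (i : ℕ)
    (h : (m1 - r1) % 3 ≠ 0 ∨ (m2 - r2) % 3 ≠ 0) : S2 g r1 r2 m1 m2 al1 al2 i = 0 := by
  unfold S2
  refine (tsum_congr fun n => ?_).trans tsum_zero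
  rw [if_neg]
  unfold InCl
  rintro ⟨h1, h2⟩
  simp only at h1 h2
  omega

/-! ### The functions -/

theorem As_scale' (w : ℂ) (k : ℤ × ℤ) (c al : ℤ) :
    As w (k, c * al) = PowerSeries.rescale (c:ℂ) (As w (k, al)) := by
  ext p
  unfold As gser
  rw [PowerSeries.coeff_rescale, PowerSeries.coeff_mk, PowerSeries.coeff_mk]
  push_cast
  rw [mul_pow, mul_assoc]

theorem Bs_scale' (w : ℂ) (k : ℤ × ℤ) (c al : ℤ) :
    Bs w (k, c * al) = PowerSeries.rescale (c:ℂ) (Bs w (k, al)) := by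
  ext p
  unfold Bs gser
  rw [PowerSeries.coeff_rescale, PowerSeries.coeff_mk, PowerSeries.coeff_mk]
  push_cast
  rw [mul_pow, mul_assoc]

theorem rescale_smul (c a : ℂ) (f : PowerSeries ℂ) :
    PowerSeries.rescale c (a • f) = a • PowerSeries.rescale c f := by
  ext p
  simp only [PowerSeries.coeff_rescale, map_smul, smul_eq_mul]
  ring

theorem add_scale (k1 k2 : ℤ × ℤ) (c al1 al2 : ℤ) :
    ((k1, c * al1) + (k2, c * al2) : SV) = (k1 + k2, c * (al1 + al2)) := by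
  rw [Prod.mk_add_mk, mul_add]

theorem add_one' (k1 k2 : ℤ × ℤ) (al1 al2 : ℤ) :
    ((k1, al1) + (k2, al2) : SV) = (k1 + k2, al1 + al2) := Prod.mk_add_mk _ _ _ _

theorem hh_scale (w : ℂ) (k : ℤ × ℤ) (c al : ℤ) :
    hh w (k, c * al) = PowerSeries.rescale (c:ℂ) (hh w (k, al)) := by
  unfold hh
  rw [As_scale', Bs_scale', rescale_smul, map_mul]

theorem dd_scale (w : ℂ) (k : ℤ × ℤ) (c al : ℤ) :
    dd w (k, c * al) = PowerSeries.rescale (c:ℂ) (dd w (k, al)) := by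
  unfold dd
  rw [As_scale', Bs_scale', rescale_smul, map_add, map_pow, map_pow]

theorem Pp_ho (w : ℂ) : Ho2 (Pp w) := by
  intro k1 k2 c al1 al2
  unfold Pp XX
  rw [add_scale, add_one', rescale_smul]
  simp only [As_scale', Bs_scale', map_mul, map_sub]

theorem br_scale (w : ℂ) (k1 k2 : ℤ × ℤ) (c al1 al2 : ℤ) :
    br w (k1, c * al1) (k2, c * al2) = PowerSeries.rescale (c:ℂ) (br w (k1, al1) (k2, al2)) := by
  unfold br
  simp only [hh_scale, dd_scale, map_mul, map_sub]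

theorem Ff_ho (w : ℂ) : Ho2 (Ff w) := by
  intro k1 k2 c al1 al2
  unfold Ff
  rw [add_scale, add_one']
  simp only [br_scale, map_add]

theorem Pp_swap (w : ℂ) (v1 v2 : SV) : Pp w v2 v1 = -Pp w v1 v2 := by
  unfold Pp XX
  rw [add_comm v2 v1, ← smul_neg]
  congr 1
  ring

theorem br_swap (w : ℂ) (v1 v2 : SV) : br w v2 v1 = -br w v1 v2 := by
  unfold br
  ring

theorem Ff_swap (w : ℂ) (v1 v2 : SV) : Ff w v2 v1 = -Ff w v1 v2 := by
  unfold Ff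
  rw [add_comm v2 v1, br_swap w v1 v2, br_swap w (v1 + v2) v1, br_swap w v2 (v1 + v2)]
  ring

theorem Pp_neg (hA1 : EC237.A1) {w : ℂ} (hw : 0 < w.re) (v1 v2 : SV) :
    Pp w (-v1) (-v2) = Pp w v1 v2 := by
  unfold Pp XX
  have e : -v1 + -v2 = -(v1 + v2) := by rw [neg_add]
  rw [e]
  simp only [(hA1 w hw).2.2.1]
  congr 1
  ring

theorem add_refl (n1 m1 al1 n2 m2 al2 : ℤ) :
    (((-n1, m1), al1) + ((-n2, m2), al2) : SV) = ((-(n1 + n2), m1 + m2), al1 + al2) := by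
  simp only [Prod.mk_add_mk]
  rw [neg_add]

theorem add_refl' (n1 m1 al1 n2 m2 al2 : ℤ) :
    (((n1, m1), -al1) + ((n2, m2), -al2) : SV) = ((n1 + n2, m1 + m2), -(al1 + al2)) := by
  simp only [Prod.mk_add_mk]
  rw [neg_add]

theorem Pp_refl (w : ℂ) (n1 m1 al1 n2 m2 al2 : ℤ) :
    Pp w ((-n1, m1), al1) ((-n2, m2), al2) = -Pp w ((n1, m1), -al1) ((n2, m2), -al2) := by
  unfold Pp XX
  rw [add_refl, add_refl', ← smul_neg]
  simp only [As_refl, Bs_refl]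
  congr 1
  ring

theorem Ff_refl (w : ℂ) (n1 m1 al1 n2 m2 al2 : ℤ) :
    Ff w ((-n1, m1), al1) ((-n2, m2), al2) = Ff w ((n1, m1), -al1) ((n2, m2), -al2) := by
  unfold Ff br
  rw [add_refl, add_refl']
  simp only [hh_refl, dd_refl]

theorem coeff_one_mul (f g : PowerSeries ℂ) : PowerSeries.coeff 1 (f * g) =
    PowerSeries.coeff 0 f * PowerSeries.coeff 1 g + PowerSeries.coeff 1 f * PowerSeries.coeff 0 g := by
  rw [PowerSeries.coeff_mul, Finset.Nat.antidiagonal_succ]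
  simp

theorem coeff_zero_mul (f g : PowerSeries ℂ) : PowerSeries.coeff 0 (f * g) =
    PowerSeries.coeff 0 f * PowerSeries.coeff 0 g := by
  simp

theorem As_c0 (w : ℂ) (k : ℤ × ℤ) (al : ℤ) : PowerSeries.coeff 0 (As w (k, al)) = (KA w k)⁻¹ := by
  unfold As gser
  rw [PowerSeries.coeff_mk]
  simp

theorem Bs_c0 (w : ℂ) (k : ℤ × ℤ) (al : ℤ) : PowerSeries.coeff 0 (Bs w (k, al)) = (KB w k)⁻¹ := by
  unfold Bs gser
  rw [PowerSeries.coeff_mk]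
  simp

theorem As_c1 (w : ℂ) (k : ℤ × ℤ) (al : ℤ) :
    PowerSeries.coeff 1 (As w (k, al)) = al * (KA w k)⁻¹ ^ 2 := by
  unfold As gser
  rw [PowerSeries.coeff_mk]
  simp

theorem Bs_c1 (w : ℂ) (k : ℤ × ℤ) (al : ℤ) :
    PowerSeries.coeff 1 (Bs w (k, al)) = al * (KB w k)⁻¹ ^ 2 := by
  unfold Bs gser
  rw [PowerSeries.coeff_mk]
  simp

theorem Pp_lin (w : ℂ) (k1 k2 : ℤ × ℤ) (al1 al2 : ℤ) :
    PowerSeries.coeff 1 (Pp w (k1, al1) (k2, al2)) =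
      (al1:ℂ) * PowerSeries.coeff 1 (Pp w (k1, 1) (k2, 0)) +
        (al2:ℂ) * PowerSeries.coeff 1 (Pp w (k1, 0) (k2, 1)) := by
  unfold Pp XX
  simp only [add_one', map_smul, smul_eq_mul, coeff_one_mul, coeff_zero_mul, map_sub, As_c0, Bs_c0,
    As_c1, Bs_c1]
  push_cast
  ring

theorem thm (hA1 : EC237.A1) (_hN1 : EC237.N1) (hN2 : EC237.N2) : EC237.N5 := by
  intro y hy r1 r2 m1 m2 al1 al2
  have hw : 0 < ((y:ℂ)).re := by simpa using hy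
  simp only [pS_eq, fS_eq]
  refine ⟨fun i => ⟨S2_swap (fun v1 v2 => Pp_swap _ v1 v2) _ _ _ _ _ _ i,
    S2_swap (fun v1 v2 => Ff_swap _ v1 v2) _ _ _ _ _ _ i⟩,
    fun i => S2_neg (fun v1 v2 => Pp_neg hA1 hw v1 v2) _ _ _ _ _ _ i, ?_, ?_, ?_, ?_, ?_⟩
  · have h1 := (hN2 y hy r1 r2 m1 m2 1 0 1).mul_left (al1:ℂ)
    have h2 := (hN2 y hy r1 r2 m1 m2 0 1 1).mul_left (al2:ℂ)
    unfold S2
    rw [← tsum_mul_left, ← tsum_mul_left, ← h1.tsum_add h2]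
    refine tsum_congr fun q => ?_
    by_cases h : InCl r1 (q.1, m1) ∧ InCl r2 (q.2, m2)
    · simp only [if_pos h]
      exact Pp_lin _ _ _ _ _
    · simp only [if_neg h, mul_zero, add_zero]
  · intro i hi
    have heven : Even i := Nat.even_iff.2 hi
    have h1 := S2_refl (g := Pp (y:ℂ)) (e := -1)
      (fun n1 m1 al1 n2 m2 al2 i => by rw [Pp_refl, map_neg, neg_one_mul]) r1 r2 m1 m2 al1 al2 i
    have h2 := S2_scale (Pp_ho (y:ℂ)) r1 r2 m1 m2 (-1) al1 al2 i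
    rw [neg_one_mul, neg_one_mul] at h2
    rw [h2] at h1
    push_cast at h1
    rw [heven.neg_one_pow] at h1
    linear_combination h1 / 2
  · intro i hi
    have hodd : Odd i := Nat.odd_iff.2 hi
    have h1 := S2_refl (g := Ff (y:ℂ)) (e := 1)
      (fun n1 m1 al1 n2 m2 al2 i => by rw [Ff_refl, one_mul]) r1 r2 m1 m2 al1 al2 i
    have h2 := S2_scale (Ff_ho (y:ℂ)) r1 r2 m1 m2 (-1) al1 al2 i
    rw [neg_one_mul, neg_one_mul] at h2
    rw [h2] at h1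
    push_cast at h1
    rw [hodd.neg_one_pow] at h1
    linear_combination h1 / 2
  · have h2 := S2_scale (Ff_ho (y:ℂ)) r1 r2 m1 m2 0 al1 al2 0
    rw [zero_mul, zero_mul, pow_zero, one_mul] at h2
    exact h2.symm
  · intro h i
    exact ⟨S2_out _ _ _ _ _ _ _ i h, S2_out _ _ _ _ _ _ _ i h⟩

end Pool.Agent.Helper87.EC.D_N5
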